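import Pool.Agent.helper20.HP.S0
import Pool.Agent.helper6.HP.B9

/-! # MP_5ae64c_pr, module B11: X3 -/

open scoped BigOperators Topology
open Filter MeasureTheory

namespace Pool.Agent.helper20.HP

variable {V : Type} [Fintype V] [DecidableEq V] {K : HW V} {θ : ℝ} {h : ℕ}

omit [Fintype V] in
theorem B11_take_hit {z : V} {F A : List V} {b : ℕ} (h : ∃ y ∈ F.drop b, y ∈ A) :
    ∃ j, b ≤ j ∧ j < F.length ∧ lst z (F.take (j + 1)) ∈ A := by
  obtain ⟨y, hy, hyA⟩ := h
  obtain ⟨i, hi, hie⟩ := List.getElem_of_mem hy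
  have hi' : b + i < F.length := by
    rw [List.length_drop] at hi
    omega
  refine ⟨b + i, Nat.le_add_right _ _, hi', ?_⟩
  rw [← List.take_append_getElem hi', lst_concat]
  rw [List.getElem_drop] at hie
  rw [hie]
  exact hyA

theorem B11_hit (hP : Par K θ h) (T : ℕ) (hT : 4 * T ≤ Nat.sqrt (Fintype.card V)) (z : V)
    (q b : ℕ) (A : List V) :
    ∑ m ∈ Finset.range (T + 1), W K m z (fun F => ind (lel z F = q) * ind (∃ y ∈ F.drop b, y ∈ A))
      ≤ CZ θ * ∑ j ∈ (Finset.range T).filter (fun j => b ≤ j), ∑ a ∈ Finset.range (j + 2),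
        ∑ v ∈ Finset.range (T + 1),
        W K (j + 1) z (fun F1 => ind (lst z F1 ∈ A) *
          K.pt v (lst z F1) ((z :: F1).getD a z)) := by
  have h1 : ∀ m ∈ Finset.range (T + 1),
      W K m z (fun F => ind (lel z F = q) * ind (∃ y ∈ F.drop b, y ∈ A))
        ≤ ∑ j ∈ (Finset.range T).filter (fun j => b ≤ j), if j + 1 ≤ m then
            W K (j + 1) z (fun F1 => ind (lst z F1 ∈ A) *
            W K (m - (j + 1)) (lst z F1) (fun F2 => ind (lel z (F1 ++ F2) = q))) else 0 := by
    intro m hm
    have hmT : m ≤ T := by simpa [Nat.lt_succ_iff] using hm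
    calc W K m z (fun F => ind (lel z F = q) * ind (∃ y ∈ F.drop b, y ∈ A))
        ≤ W K m z (fun F => ∑ j ∈ (Finset.range T).filter (fun j => b ≤ j), if j + 1 ≤ m then
            ind (lst z (F.take (j + 1)) ∈ A) * ind (lel z F = q) else 0) := by
          refine W_mono K m z fun F hF => ?_
          by_cases hh : ∃ y ∈ F.drop b, y ∈ A
          · rw [ind_true hh, mul_one]
            obtain ⟨j, hbj, hj, hjA⟩ := B11_take_hit (z := z) hh
            have hjm : j + 1 ≤ m := by omega
            have h2 : ind (lel z F = q) = (if j + 1 ≤ m then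
              ind (lst z (F.take (j + 1)) ∈ A) * ind (lel z F = q) else 0) := by
              rw [if_pos hjm, ind_true hjA, one_mul]
            refine le_trans (le_of_eq h2) ?_
            refine Finset.single_le_sum (f := fun j => if j + 1 ≤ m then
              ind (lst z (F.take (j + 1)) ∈ A) * ind (lel z F = q) else 0) (fun i _ => ?_)
              (Finset.mem_filter.mpr ⟨Finset.mem_range.mpr (by omega), hbj⟩)
            split_ifs
            · exact mul_nonneg (ind_nonneg _) (ind_nonneg _)
            · exact le_rfl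
          · rw [ind_false hh, mul_zero]
            refine Finset.sum_nonneg fun i _ => ?_
            split_ifs
            · exact mul_nonneg (ind_nonneg _) (ind_nonneg _)
            · exact le_rfl
      _ = ∑ j ∈ (Finset.range T).filter (fun j => b ≤ j), if j + 1 ≤ m then
            W K (j + 1) z (fun F1 => ind (lst z F1 ∈ A) *
            W K (m - (j + 1)) (lst z F1) (fun F2 => ind (lel z (F1 ++ F2) = q))) else 0 := by
          rw [W_sum]
          refine Finset.sum_congr rfl fun j _ => ?_
          split_ifs with hjm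
          · obtain ⟨v, rfl⟩ := Nat.exists_eq_add_of_le hjm
            rw [W_split, Nat.add_sub_cancel_left]
            refine W_congr K _ _ fun F1 hF1 => ?_
            rw [← W_mul_left]
            refine W_congr K _ _ fun F2 _ => ?_
            have h3 : (F1 ++ F2).take (j + 1) = F1 := by
              rw [← hF1]; exact List.take_left
            rw [h3]
          · exact W_const K m z 0
  calc ∑ m ∈ Finset.range (T + 1),
        W K m z (fun F => ind (lel z F = q) * ind (∃ y ∈ F.drop b, y ∈ A))
      ≤ ∑ m ∈ Finset.range (T + 1), ∑ j ∈ (Finset.range T).filter (fun j => b ≤ j),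
          if j + 1 ≤ m then
          W K (j + 1) z (fun F1 => ind (lst z F1 ∈ A) *
            W K (m - (j + 1)) (lst z F1) (fun F2 => ind (lel z (F1 ++ F2) = q))) else 0 :=
        Finset.sum_le_sum h1
    _ = ∑ j ∈ (Finset.range T).filter (fun j => b ≤ j), ∑ m ∈ Finset.range (T + 1),
          if j + 1 ≤ m then
          W K (j + 1) z (fun F1 => ind (lst z F1 ∈ A) *
            W K (m - (j + 1)) (lst z F1) (fun F2 => ind (lel z (F1 ++ F2) = q))) else 0 :=
        Finset.sum_comm
    _ ≤ ∑ j ∈ (Finset.range T).filter (fun j => b ≤ j), ∑ v ∈ Finset.range (T + 1),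
          W K (j + 1) z (fun F1 => ind (lst z F1 ∈ A) *
            W K v (lst z F1) (fun F2 => ind (lel z (F1 ++ F2) = q))) := by
        refine Finset.sum_le_sum fun j _ => ?_
        rw [← Finset.sum_filter]
        have h4 : ∑ m ∈ (Finset.range (T + 1)).filter (fun m => j + 1 ≤ m),
          W K (j + 1) z (fun F1 => ind (lst z F1 ∈ A) *
            W K (m - (j + 1)) (lst z F1) (fun F2 => ind (lel z (F1 ++ F2) = q)))
          = ∑ v ∈ ((Finset.range (T + 1)).filter (fun m => j + 1 ≤ m)).image (fun m => m - (j + 1)),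
            W K (j + 1) z (fun F1 => ind (lst z F1 ∈ A) *
            W K v (lst z F1) (fun F2 => ind (lel z (F1 ++ F2) = q))) := by
          rw [Finset.sum_image]
          intro m hm m' hm' he
          rw [Finset.mem_coe, Finset.mem_filter] at hm hm'
          have he' : m - (j + 1) = m' - (j + 1) := he
          omega
        rw [h4]
        refine Finset.sum_le_sum_of_subset_of_nonneg ?_ fun v _ _ => ?_
        · intro v hv
          simp only [Finset.mem_image, Finset.mem_filter, Finset.mem_range] at hv ⊢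
          omega
        · exact W_nonneg K _ _ fun l _ => mul_nonneg (ind_nonneg _)
            (W_nonneg K _ _ fun l _ => ind_nonneg _)
    _ ≤ ∑ j ∈ (Finset.range T).filter (fun j => b ≤ j), CZ θ * ∑ a ∈ Finset.range (j + 2),
        ∑ v ∈ Finset.range (T + 1),
        W K (j + 1) z (fun F1 => ind (lst z F1 ∈ A) *
          K.pt v (lst z F1) ((z :: F1).getD a z)) := by
        refine Finset.sum_le_sum fun j _ => ?_
        calc ∑ v ∈ Finset.range (T + 1), W K (j + 1) z (fun F1 => ind (lst z F1 ∈ A) *
                W K v (lst z F1) (fun F2 => ind (lel z (F1 ++ F2) = q)))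
            = W K (j + 1) z (fun F1 => ind (lst z F1 ∈ A) * ∑ v ∈ Finset.range (T + 1),
                W K v (lst z F1) (fun F2 => ind (lel z (F1 ++ F2) = q))) := by
              rw [← W_sum]
              exact W_congr K _ _ fun F1 _ => (Finset.mul_sum _ _ _).symm
          _ ≤ W K (j + 1) z (fun F1 => ind (lst z F1 ∈ A) * (CZ θ *
                ∑ a ∈ Finset.range (j + 2), ∑ v ∈ Finset.range (T + 1),
                K.pt v (lst z F1) ((z :: F1).getD a z))) := by
              refine W_mono K _ _ fun F1 hF1 => mul_le_mul_of_nonneg_left ?_ (ind_nonneg _)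
              have := X0 hP q T hT z F1
              rw [hF1] at this
              exact this
          _ = CZ θ * ∑ a ∈ Finset.range (j + 2), ∑ v ∈ Finset.range (T + 1),
                W K (j + 1) z (fun F1 => ind (lst z F1 ∈ A) *
                  K.pt v (lst z F1) ((z :: F1).getD a z)) := by
              simp only [← W_sum]
              rw [← W_mul_left]
              refine W_congr K _ _ fun F1 _ => ?_
              simp only [Finset.mul_sum]
              refine Finset.sum_congr rfl fun a _ => Finset.sum_congr rfl fun v _ => ?_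
              ring
    _ = CZ θ * ∑ j ∈ (Finset.range T).filter (fun j => b ≤ j), ∑ a ∈ Finset.range (j + 2),
        ∑ v ∈ Finset.range (T + 1),
        W K (j + 1) z (fun F1 => ind (lst z F1 ∈ A) *
          K.pt v (lst z F1) ((z :: F1).getD a z)) := by
        rw [Finset.mul_sum]

/-- kernel bound with the fixed starting point `x` -/
theorem B11_kernel (x : V) (A : List V) (a v : ℕ) :
    ∑ y : V, K.pt a x y * ∑ w : V, ind (w ∈ A) * K.pt v w y ≤ (A.length : ℝ) * cc K (a + v) := by
  calc ∑ y : V, K.pt a x y * ∑ w : V, ind (w ∈ A) * K.pt v w y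
      = ∑ w : V, ind (w ∈ A) * K.pt (a + v) x w := by
        simp only [Finset.mul_sum]
        rw [Finset.sum_comm]
        refine Finset.sum_congr rfl fun w _ => ?_
        rw [pt_add, Finset.mul_sum]
        refine Finset.sum_congr rfl fun y _ => ?_
        rw [pt_symm K v w y]
        ring
    _ ≤ ∑ w : V, ind (w ∈ A) * cc K (a + v) := by
        refine Finset.sum_le_sum fun w _ => mul_le_mul_of_nonneg_left (pt_le_cc K _ _ _)
          (ind_nonneg _)
    _ = (∑ w : V, ind (w ∈ A)) * cc K (a + v) := by rw [Finset.sum_mul]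
    _ ≤ (A.length : ℝ) * cc K (a + v) :=
        mul_le_mul_of_nonneg_right (B9_sum_mem_le A) (cc_nonneg K _)

/-- X3 : fixed start, F hits A after time 2h (for j ≥ 2h and a ≤ j either a ≥ h or j - a ≥ h) -/
theorem X3 (hP : Par K θ h) (T : ℕ) (hT : 4 * T ≤ Nat.sqrt (Fintype.card V)) (x : V)
    (q : ℕ) (A : List V) :
    ∑ m ∈ Finset.range (T + 1), W K m x (fun F =>
        ind (lel x F = q) * ind (∃ y ∈ F.drop (2 * h), y ∈ A))
      ≤ 2 * CZ θ * θ * (T * A.length * (3 / (2 * (Fintype.card V : ℝ)))) := by
  have hcc : ∀ t, 0 ≤ cc K t := cc_nonneg K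
  have hθ : 0 ≤ θ := le_trans zero_le_one hP.one_le
  have hterm : ∀ j, 2 * h ≤ j → ∀ a ∈ Finset.range (j + 2), ∀ v,
      W K (j + 1) x (fun F1 => ind (lst x F1 ∈ A) * K.pt v (lst x F1) ((x :: F1).getD a x))
        ≤ 3 / (2 * (Fintype.card V : ℝ)) * ((A.length : ℝ) *
          (cc K ((j + 1 - a) + v) + cc K (a + v))) := by
    intro j hj a ha v
    have haj : a ≤ j + 1 := by
      have := Finset.mem_range.mp ha
      omega
    obtain ⟨c, hc⟩ := Nat.exists_eq_add_of_le haj
    have hc' : j + 1 - a = c := by omega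
    rw [hc', hc, B9_W_getD A v a c x]
    by_cases hah : h ≤ a
    · calc ∑ y, K.pt a x y * ∑ w, K.pt c y w * (ind (w ∈ A) * K.pt v w y)
          ≤ ∑ y, 3 / (2 * (Fintype.card V : ℝ)) *
                ∑ w, K.pt c y w * (ind (w ∈ A) * K.pt v w y) := by
            refine Finset.sum_le_sum fun y _ => mul_le_mul_of_nonneg_right
              (hP.mix _ hah _ _) ?_
            exact Finset.sum_nonneg fun w _ => mul_nonneg (pt_nonneg K _ _ _)
              (mul_nonneg (ind_nonneg _) (pt_nonneg K _ _ _))
        _ = 3 / (2 * (Fintype.card V : ℝ)) *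
                ∑ y, ∑ w, K.pt c y w * (ind (w ∈ A) * K.pt v w y) := by rw [Finset.mul_sum]
        _ ≤ 3 / (2 * (Fintype.card V : ℝ)) * ((A.length : ℝ) * cc K (c + v)) :=
            mul_le_mul_of_nonneg_left (B9_kernel A v c) (by positivity)
        _ ≤ 3 / (2 * (Fintype.card V : ℝ)) * ((A.length : ℝ) * (cc K (c + v) + cc K (a + v))) := by
            refine mul_le_mul_of_nonneg_left (mul_le_mul_of_nonneg_left ?_ (by positivity))
              (by positivity)
            linarith [hcc (a + v)]
    · have hch : h ≤ c := by omega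
      calc ∑ y, K.pt a x y * ∑ w, K.pt c y w * (ind (w ∈ A) * K.pt v w y)
          ≤ ∑ y, K.pt a x y * ∑ w, 3 / (2 * (Fintype.card V : ℝ)) *
                (ind (w ∈ A) * K.pt v w y) := by
            refine Finset.sum_le_sum fun y _ => mul_le_mul_of_nonneg_left ?_ (pt_nonneg K _ _ _)
            refine Finset.sum_le_sum fun w _ => mul_le_mul_of_nonneg_right
              (hP.mix _ hch _ _) (mul_nonneg (ind_nonneg _) (pt_nonneg K _ _ _))
        _ = 3 / (2 * (Fintype.card V : ℝ)) *
                ∑ y, K.pt a x y * ∑ w, ind (w ∈ A) * K.pt v w y := by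
            rw [Finset.mul_sum]
            refine Finset.sum_congr rfl fun y _ => ?_
            rw [← Finset.mul_sum]
            ring
        _ ≤ 3 / (2 * (Fintype.card V : ℝ)) * ((A.length : ℝ) * cc K (a + v)) :=
            mul_le_mul_of_nonneg_left (B11_kernel x A a v) (by positivity)
        _ ≤ 3 / (2 * (Fintype.card V : ℝ)) * ((A.length : ℝ) * (cc K (c + v) + cc K (a + v))) := by
            refine mul_le_mul_of_nonneg_left (mul_le_mul_of_nonneg_left ?_ (by positivity))
              (by positivity)
            linarith [hcc (c + v)]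
  have hj : ∀ j ∈ (Finset.range T).filter (fun j => 2 * h ≤ j),
      ∑ a ∈ Finset.range (j + 2), ∑ v ∈ Finset.range (T + 1),
        W K (j + 1) x (fun F1 => ind (lst x F1 ∈ A) * K.pt v (lst x F1) ((x :: F1).getD a x))
      ≤ 3 / (2 * (Fintype.card V : ℝ)) * ((A.length : ℝ) * (2 * θ)) := by
    intro j hj
    obtain ⟨hjT, hjh⟩ := Finset.mem_filter.mp hj
    have hjT' : j < T := Finset.mem_range.mp hjT
    have h1 : ∑ a ∈ Finset.range (j + 2), ∑ v ∈ Finset.range (T + 1), cc K ((j + 1 - a) + v)
        = ∑ a ∈ Finset.range (j + 2), ∑ v ∈ Finset.range (T + 1), cc K (a + v) := by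
      rw [← Finset.sum_range_reflect (fun a => ∑ v ∈ Finset.range (T + 1), cc K (a + v)) (j + 2)]
      refine Finset.sum_congr rfl fun a ha => Finset.sum_congr rfl fun v _ => ?_
      congr 2
    have h2 : ∑ a ∈ Finset.range (j + 2), ∑ v ∈ Finset.range (T + 1), cc K (a + v) ≤ θ :=
      cc_double_le hP (by omega)
    calc ∑ a ∈ Finset.range (j + 2), ∑ v ∈ Finset.range (T + 1),
        W K (j + 1) x (fun F1 => ind (lst x F1 ∈ A) * K.pt v (lst x F1) ((x :: F1).getD a x))
        ≤ ∑ a ∈ Finset.range (j + 2), ∑ v ∈ Finset.range (T + 1),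
          3 / (2 * (Fintype.card V : ℝ)) * ((A.length : ℝ) *
          (cc K ((j + 1 - a) + v) + cc K (a + v))) :=
          Finset.sum_le_sum fun a ha => Finset.sum_le_sum fun v _ => hterm j hjh a ha v
      _ = 3 / (2 * (Fintype.card V : ℝ)) * ((A.length : ℝ) *
          (∑ a ∈ Finset.range (j + 2), ∑ v ∈ Finset.range (T + 1), cc K ((j + 1 - a) + v)
            + ∑ a ∈ Finset.range (j + 2), ∑ v ∈ Finset.range (T + 1), cc K (a + v))) := by
          rw [← Finset.sum_add_distrib]
          simp only [← Finset.sum_add_distrib, Finset.mul_sum]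
      _ ≤ 3 / (2 * (Fintype.card V : ℝ)) * ((A.length : ℝ) * (2 * θ)) := by
          rw [h1]
          exact mul_le_mul_of_nonneg_left (mul_le_mul_of_nonneg_left (by linarith)
            (by positivity)) (by positivity)
  calc ∑ m ∈ Finset.range (T + 1), W K m x (fun F =>
        ind (lel x F = q) * ind (∃ y ∈ F.drop (2 * h), y ∈ A))
      ≤ CZ θ * ∑ j ∈ (Finset.range T).filter (fun j => 2 * h ≤ j), ∑ a ∈ Finset.range (j + 2),
        ∑ v ∈ Finset.range (T + 1),
        W K (j + 1) x (fun F1 => ind (lst x F1 ∈ A) *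
          K.pt v (lst x F1) ((x :: F1).getD a x)) := B11_hit hP T hT x q (2 * h) A
    _ ≤ CZ θ * ∑ j ∈ (Finset.range T).filter (fun j => 2 * h ≤ j),
          3 / (2 * (Fintype.card V : ℝ)) * ((A.length : ℝ) * (2 * θ)) :=
        mul_le_mul_of_nonneg_left (Finset.sum_le_sum hj) (B9_CZ_nonneg θ)
    _ ≤ CZ θ * ∑ j ∈ Finset.range T, 3 / (2 * (Fintype.card V : ℝ)) * ((A.length : ℝ) * (2 * θ)) := by
        refine mul_le_mul_of_nonneg_left ?_ (B9_CZ_nonneg θ)
        refine Finset.sum_le_sum_of_subset_of_nonneg (Finset.filter_subset _ _) fun _ _ _ => ?_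
        positivity
    _ = 2 * CZ θ * θ * (T * A.length * (3 / (2 * (Fintype.card V : ℝ)))) := by
        rw [Finset.sum_const, Finset.card_range, nsmul_eq_mul]
        ring

end Pool.Agent.helper20.HP
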