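import Pool.Agent.helper20.HP.Goal

/-! # MP_5ae64c_pr, module A6: the letter model -/

open scoped BigOperators Topology
open Filter MeasureTheory

namespace Pool.Agent.helper20.HP

variable {V : Type} [Fintype V] [DecidableEq V] (K : HW V)

theorem mu_nonneg (o : V) (g : Aut K) : 0 ≤ mu K o g :=
  div_nonneg (K.nonneg _ _) (Nat.cast_nonneg _)

theorem exists_frame (o x : V) : ∃ ψ : Aut K, ψ.1 o = x := by
  obtain ⟨σ, hσ, hx⟩ := K.homog o x
  exact ⟨⟨σ, hσ⟩, hx⟩

theorem A6_card_pos (o : V) : 0 < Nat.card {s : Aut K // s.1 o = o} := by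
  have : Nonempty {s : Aut K // s.1 o = o} := ⟨⟨1, rfl⟩⟩
  exact Nat.card_pos

theorem A6_fiber (o y : V) :
    (Finset.univ.filter (fun g : Aut K => g.1 o = y)).card = Nat.card {s : Aut K // s.1 o = o} := by
  classical
  obtain ⟨g0, hg0⟩ := exists_frame K o y
  have e : {s : Aut K // s.1 o = o} ≃ {g : Aut K // g.1 o = y} :=
    { toFun := fun s => ⟨g0 * s.1, by
        show g0.1 (s.1.1 o) = y
        rw [s.2, hg0]⟩
      invFun := fun g => ⟨g0⁻¹ * g.1, by
        show g0.1⁻¹ (g.1.1 o) = o
        rw [g.2, ← hg0]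
        simp⟩
      left_inv := fun s => by
        apply Subtype.ext
        simp
      right_inv := fun g => by
        apply Subtype.ext
        simp }
  rw [Nat.card_congr e, Nat.card_eq_fintype_card, Fintype.card_subtype]

theorem A6_sum (o : V) (G : V → ℝ) :
    ∑ g : Aut K, mu K o g * G (g.1 o) = ∑ z, K.p o z * G z := by
  classical
  have h1 : ∑ g : Aut K, mu K o g * G (g.1 o)
      = ∑ z, ∑ g ∈ Finset.univ.filter (fun g : Aut K => g.1 o = z), mu K o g * G (g.1 o) := by
    rw [← Finset.sum_fiberwise_of_maps_to (s := Finset.univ) (t := Finset.univ)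
      (g := fun g : Aut K => g.1 o) (fun _ _ => Finset.mem_univ _)]
  rw [h1]
  refine Finset.sum_congr rfl fun z _ => ?_
  have h2 : ∀ g ∈ Finset.univ.filter (fun g : Aut K => g.1 o = z), mu K o g * G (g.1 o)
      = K.p o z / (Nat.card {s : Aut K // s.1 o = o} : ℝ) * G z := by
    intro g hg
    have hz : g.1 o = z := (Finset.mem_filter.mp hg).2
    unfold mu
    rw [hz]
  rw [Finset.sum_congr rfl h2, Finset.sum_const, A6_fiber, nsmul_eq_mul]
  have hpos : (0 : ℝ) < (Nat.card {s : Aut K // s.1 o = o} : ℝ) := by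
    exact_mod_cast A6_card_pos K o
  field_simp

theorem mu_sum (o : V) : ∑ g : Aut K, mu K o g = 1 := by
  have h := A6_sum K o (fun _ => 1)
  simp only [mul_one] at h
  rw [h, K.sum_one]

theorem mu_inv (o : V) (g : Aut K) : mu K o g⁻¹ = mu K o g := by
  unfold mu
  congr 1
  have h1 : K.p (g.1 o) (g.1 ((g⁻¹ : Aut K).1 o)) = K.p o ((g⁻¹ : Aut K).1 o) := g.2 _ _
  have h2 : g.1 ((g⁻¹ : Aut K).1 o) = o := by
    show g.1 (g.1⁻¹ o) = o
    simp
  rw [← h1, h2, K.symm]

theorem EL_congr (o : V) (k : ℕ) {f g : List (Aut K) → ℝ} (h : ∀ L, L.length = k → f L = g L) :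
    EL K o k f = EL K o k g := by
  induction k generalizing f g with
  | zero => exact h [] rfl
  | succ k ih =>
    show ∑ a : Aut K, mu K o a * EL K o k (fun L => f (a :: L))
      = ∑ a : Aut K, mu K o a * EL K o k (fun L => g (a :: L))
    refine Finset.sum_congr rfl fun a _ => ?_
    rw [ih (f := fun L => f (a :: L)) (g := fun L => g (a :: L)) fun L hL => h _ (by simp [hL])]

theorem EL_mono (o : V) (k : ℕ) {f g : List (Aut K) → ℝ} (h : ∀ L, L.length = k → f L ≤ g L) :
    EL K o k f ≤ EL K o k g := by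
  induction k generalizing f g with
  | zero => exact h [] rfl
  | succ k ih =>
    show ∑ a : Aut K, mu K o a * EL K o k (fun L => f (a :: L))
      ≤ ∑ a : Aut K, mu K o a * EL K o k (fun L => g (a :: L))
    refine Finset.sum_le_sum fun a _ => mul_le_mul_of_nonneg_left ?_ (mu_nonneg K o a)
    exact ih fun L hL => h _ (by simp [hL])

theorem EL_const (o : V) (k : ℕ) (c : ℝ) : EL K o k (fun _ => c) = c := by
  induction k with
  | zero => rfl
  | succ k ih =>
    show ∑ a : Aut K, mu K o a * EL K o k (fun _ => c) = c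
    rw [ih, ← Finset.sum_mul, mu_sum, one_mul]

theorem EL_nonneg (o : V) (k : ℕ) {f : List (Aut K) → ℝ} (h : ∀ L, L.length = k → 0 ≤ f L) :
    0 ≤ EL K o k f := by
  have h1 := EL_mono K o k (f := fun _ => 0) (g := f) h
  rwa [EL_const] at h1

theorem EL_mul_left (o : V) (k : ℕ) (c : ℝ) (f : List (Aut K) → ℝ) :
    EL K o k (fun L => c * f L) = c * EL K o k f := by
  induction k generalizing f with
  | zero => rfl
  | succ k ih =>
    show ∑ a : Aut K, mu K o a * EL K o k (fun L => c * f (a :: L))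
      = c * ∑ a : Aut K, mu K o a * EL K o k (fun L => f (a :: L))
    rw [Finset.mul_sum]
    refine Finset.sum_congr rfl fun a _ => ?_
    rw [ih (fun L => f (a :: L))]
    ring

theorem EL_mul_right (o : V) (k : ℕ) (c : ℝ) (f : List (Aut K) → ℝ) :
    EL K o k (fun L => f L * c) = EL K o k f * c := by
  rw [mul_comm (EL K o k f) c, ← EL_mul_left]
  exact EL_congr K o k fun L _ => mul_comm _ _

theorem EL_sum {ι : Type*} (s : Finset ι) (o : V) (k : ℕ) (f : ι → List (Aut K) → ℝ) :
    EL K o k (fun L => ∑ i ∈ s, f i L) = ∑ i ∈ s, EL K o k (f i) := by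
  induction k generalizing f with
  | zero => rfl
  | succ k ih =>
    show ∑ a : Aut K, mu K o a * EL K o k (fun L => ∑ i ∈ s, f i (a :: L))
      = ∑ i ∈ s, ∑ a : Aut K, mu K o a * EL K o k (fun L => f i (a :: L))
    rw [Finset.sum_comm]
    refine Finset.sum_congr rfl fun a _ => ?_
    rw [ih (fun i L => f i (a :: L)), Finset.mul_sum]

theorem EL_add (o : V) (k : ℕ) (f g : List (Aut K) → ℝ) :
    EL K o k (fun L => f L + g L) = EL K o k f + EL K o k g := by
  have h := EL_sum K (Finset.univ : Finset Bool) o k (fun b => if b then f else g)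
  simpa using h

theorem EL_sub (o : V) (k : ℕ) (f g : List (Aut K) → ℝ) :
    EL K o k (fun L => f L - g L) = EL K o k f - EL K o k g := by
  have h1 : EL K o k (fun L => f L - g L) = EL K o k (fun L => f L + (-1) * g L) :=
    EL_congr K o k fun L _ => by ring
  rw [h1, EL_add, EL_mul_left]
  ring

theorem EL_split (o : V) (j k : ℕ) (f : List (Aut K) → ℝ) :
    EL K o (j + k) f = EL K o j (fun L => EL K o k (fun L' => f (L ++ L'))) := by
  induction j generalizing f with
  | zero =>
    rw [Nat.zero_add]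
    rfl
  | succ j ih =>
    rw [Nat.succ_add]
    show ∑ a : Aut K, mu K o a * EL K o (j + k) (fun L => f (a :: L))
      = ∑ a : Aut K, mu K o a * EL K o j (fun L => EL K o k (fun L' => f (a :: L ++ L')))
    refine Finset.sum_congr rfl fun a _ => ?_
    rw [ih (fun L => f (a :: L))]
    rfl

theorem EL_comm (o : V) (j k : ℕ) (f : List (Aut K) → List (Aut K) → ℝ) :
    EL K o j (fun L => EL K o k (fun L' => f L L'))
      = EL K o k (fun L' => EL K o j (fun L => f L L')) := by
  induction j generalizing f with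
  | zero => rfl
  | succ j ih =>
    show ∑ a : Aut K, mu K o a * EL K o j (fun L => EL K o k (fun L' => f (a :: L) L'))
      = EL K o k (fun L' => ∑ a : Aut K, mu K o a * EL K o j (fun L => f (a :: L) L'))
    rw [EL_sum]
    refine Finset.sum_congr rfl fun a _ => ?_
    rw [ih (fun L L' => f (a :: L) L'), EL_mul_left]

/-- time reversal for letters -/
theorem EL_rev (o : V) (k : ℕ) (f : List (Aut K) → ℝ) :
    EL K o k f = EL K o k (fun L => f (L.reverse.map (fun g => g⁻¹))) := by
  induction k generalizing f with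
  | zero => rfl
  | succ k ih =>
    have h1 : EL K o (k + 1) (fun L => f (L.reverse.map (fun g => g⁻¹)))
        = ∑ a : Aut K, mu K o a * EL K o k (fun L => f (L ++ [a⁻¹])) := by
      show ∑ a : Aut K, mu K o a * EL K o k (fun L => f ((a :: L).reverse.map (fun g => g⁻¹)))
        = ∑ a : Aut K, mu K o a * EL K o k (fun L => f (L ++ [a⁻¹]))
      refine Finset.sum_congr rfl fun a _ => ?_
      rw [ih (fun L => f (L ++ [a⁻¹]))]
      congr 1
      refine EL_congr K o k fun L _ => ?_
      simp
    have h2 : ∑ a : Aut K, mu K o a * EL K o k (fun L => f (L ++ [a⁻¹]))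
        = ∑ a : Aut K, mu K o a * EL K o k (fun L => f (L ++ [a])) := by
      rw [← Equiv.sum_comp (Equiv.inv (Aut K))]
      refine Finset.sum_congr rfl fun a _ => ?_
      rw [Equiv.inv_apply, mu_inv, inv_inv]
    rw [h1, h2, EL_split]
    have h3 : ∀ L : List (Aut K), EL K o 1 (fun L' => f (L ++ L'))
        = ∑ a : Aut K, mu K o a * f (L ++ [a]) := fun L => rfl
    simp only [h3]
    rw [EL_sum]
    refine Finset.sum_congr rfl fun a _ => ?_
    rw [EL_mul_left]

theorem vp_append (o : V) (ψ : Aut K) (L L' : List (Aut K)) :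
    vp o ψ (L ++ L') = vp o ψ L ++ vp o (ψ * L.prod) L' := by
  induction L generalizing ψ with
  | nil => simp [vp]
  | cons g L ih =>
    show (ψ * g).1 o :: vp o (ψ * g) (L ++ L') = (ψ * g).1 o :: vp o (ψ * g) L ++ _
    rw [ih, List.prod_cons, ← mul_assoc]
    rfl

theorem vp_length (o : V) (ψ : Aut K) (L : List (Aut K)) : (vp o ψ L).length = L.length := by
  induction L generalizing ψ with
  | nil => rfl
  | cons g L ih =>
    show (vp o (ψ * g) L).length + 1 = L.length + 1
    rw [ih]

theorem vp_lst (o : V) (ψ : Aut K) (L : List (Aut K)) :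
    lst (ψ.1 o) (vp o ψ L) = (ψ * L.prod).1 o := by
  induction L generalizing ψ with
  | nil => simp [vp, lst]
  | cons g L ih =>
    have h1 : lst (ψ.1 o) (vp o ψ (g :: L)) = lst ((ψ * g).1 o) (vp o (ψ * g) L) := by
      show ((ψ * g).1 o :: vp o (ψ * g) L).getLastD (ψ.1 o) = _
      rw [List.getLastD_cons]
      rfl
    rw [h1, ih, List.prod_cons, ← mul_assoc]

theorem vp_mul (o : V) (φ ψ : Aut K) (L : List (Aut K)) :
    vp o (φ * ψ) L = (vp o ψ L).map φ.1 := by
  induction L generalizing ψ with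
  | nil => rfl
  | cons g L ih =>
    show (φ * ψ * g).1 o :: vp o (φ * ψ * g) L = φ.1 ((ψ * g).1 o) :: (vp o (ψ * g) L).map φ.1
    rw [← ih, mul_assoc]
    rfl

/-- vertices of the reversed letters -/
theorem vp_rev (o : V) (ψ : Aut K) (L : List (Aut K)) :
    (ψ * L.prod).1 o :: vp o (ψ * L.prod) (L.reverse.map (fun g => g⁻¹))
      = (ψ.1 o :: vp o ψ L).reverse := by
  induction L generalizing ψ with
  | nil => simp [vp]
  | cons g L ih =>
    have h1 : (g :: L).reverse.map (fun g => g⁻¹) = (L.reverse.map (fun g => g⁻¹)) ++ [g⁻¹] := by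
      simp
    have h2 : ψ * (g :: L).prod = (ψ * g) * L.prod := by
      rw [List.prod_cons, mul_assoc]
    have h3 : (L.reverse.map (fun g : Aut K => g⁻¹)).prod = L.prod⁻¹ := by
      rw [List.prod_inv_reverse, List.map_reverse]
    rw [h1, h2, vp_append, ← List.cons_append, ih (ψ * g), h3, mul_inv_cancel_right]
    have h4 : vp o (ψ * g) [g⁻¹] = [ψ.1 o] := by
      show [(ψ * g * g⁻¹).1 o] = [ψ.1 o]
      rw [mul_inv_cancel_right]
    rw [h4]
    have h5 : vp o ψ (g :: L) = (ψ * g).1 o :: vp o (ψ * g) L := rfl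
    rw [h5, List.reverse_cons (a := ψ.1 o)]

/-- the vertex walk is the projection of the letter walk -/
theorem W_eq_EL (o : V) (ψ : Aut K) (k : ℕ) (f : List V → ℝ) :
    W K k (ψ.1 o) f = EL K o k (fun L => f (vp o ψ L)) := by
  induction k generalizing ψ f with
  | zero => rfl
  | succ k ih =>
    show ∑ y, K.p (ψ.1 o) y * W K k y (fun l => f (y :: l))
      = ∑ g : Aut K, mu K o g * EL K o k (fun L => f (vp o ψ (g :: L)))
    have h1 : ∀ g : Aut K, EL K o k (fun L => f (vp o ψ (g :: L)))
        = W K k (ψ.1 (g.1 o)) (fun l => f (ψ.1 (g.1 o) :: l)) := by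
      intro g
      have := ih (ψ * g) (fun l => f (ψ.1 (g.1 o) :: l))
      exact this.symm
    have h2 := A6_sum K o (fun z => W K k (ψ.1 z) (fun l => f (ψ.1 z :: l)))
    have h3 : ∑ g : Aut K, mu K o g * EL K o k (fun L => f (vp o ψ (g :: L)))
        = ∑ g : Aut K, mu K o g * W K k (ψ.1 (g.1 o)) (fun l => f (ψ.1 (g.1 o) :: l)) :=
      Finset.sum_congr rfl fun g _ => by rw [h1 g]
    rw [h3, h2, ← Equiv.sum_comp ψ.1 (fun y => K.p (ψ.1 o) y * W K k y (fun l => f (y :: l)))]
    refine Finset.sum_congr rfl fun z _ => ?_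
    rw [ψ.2]

end Pool.Agent.helper20.HP
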